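import Pool.Agent.MP_ea150c_mp.H49.SpecF

/-! The inversion formula for operators in divergence form, by the number operator. -/

set_option linter.unusedSectionVars false

namespace Pool.Agent.MP_ea150c_mp.H33

open Pool.Agent.MP_ea150c_mp.H49

section Weyl
variable {O H B Γ σ κ : Type} [CommRing O] [AddCommGroup H] [Module O H] [AddCommGroup B]
  [Module O B] [AddCommGroup Γ] [Fintype σ] [DecidableEq σ]

theorem sub_add_single (n : σ → ℕ) (i : σ) (h : n i ≠ 0) :
    n - Pi.single i 1 + Pi.single i 1 = n := by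
  funext k
  by_cases hk : k = i
  · subst hk; simp; omega
  · simp [hk]

theorem vac (V : (σ → ℕ) → B →ₗ[O] H) (N : H →ₗ[O] H) (W : Submodule O H)
    (hN : ∀ n b, N (V n b) = (∑ i, n i) • V n b) (hW : ∀ x ∈ W, N x ∈ W) (ν : κ → σ → ℕ) (m : ℕ) :
    ∀ (s : Finset κ) (β : κ → B), (∀ a ∈ s, ∑ i, ν a i ≤ m) → ∑ a ∈ s, V (ν a) (β a) ∈ W →
      m.factorial • V 0 (∑ a ∈ s.filter (fun a => ν a = 0), β a) ∈ W := by
  induction m with
  | zero =>
    intro s β h1 h2
    have h0 : ∀ a ∈ s, ν a = 0 := fun a ha => funext fun i =>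
      Finset.sum_eq_zero_iff.1 (Nat.le_zero.1 (h1 a ha)) i (Finset.mem_univ i)
    rw [Finset.filter_true_of_mem h0, Nat.factorial_zero, one_smul, map_sum]
    rwa [Finset.sum_congr rfl fun a ha => by rw [h0 a ha]] at h2
  | succ m ih =>
    intro s β h1 h2
    have h3 : (m + 1) • ∑ a ∈ s, V (ν a) (β a) - N (∑ a ∈ s, V (ν a) (β a)) ∈ W :=
      W.sub_mem (nsmul_mem h2 _) (hW _ h2)
    have h4 : (m + 1) • ∑ a ∈ s, V (ν a) (β a) - N (∑ a ∈ s, V (ν a) (β a)) =
        ∑ a ∈ s.filter (fun a => ∑ i, ν a i ≤ m), V (ν a) ((m + 1 - ∑ i, ν a i) • β a) := by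
      rw [map_sum, Finset.smul_sum, ← Finset.sum_sub_distrib, Finset.sum_filter]
      refine Finset.sum_congr rfl fun a ha => ?_
      rw [hN, map_nsmul]
      split_ifs with h
      · rw [sub_nsmul _ (h1 a ha), sub_eq_add_neg]
      · have : ∑ i, ν a i = m + 1 := by have := h1 a ha; omega
        rw [this, sub_self]
    rw [h4] at h3
    have h5 := ih _ _ (fun a ha => (Finset.mem_filter.1 ha).2) h3
    have h6 : ∑ a ∈ (s.filter (fun a => ∑ i, ν a i ≤ m)).filter (fun a => ν a = 0),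
        (m + 1 - ∑ i, ν a i) • β a = (m + 1) • ∑ a ∈ s.filter (fun a => ν a = 0), β a := by
      rw [Finset.smul_sum, Finset.filter_filter]
      refine Finset.sum_congr (Finset.filter_congr fun a _ => ?_) fun a ha => ?_
      · exact ⟨fun h => h.2, fun h => ⟨by simp [h], h⟩⟩
      · simp [(Finset.mem_filter.1 ha).2]
    rw [h6, map_nsmul, ← mul_nsmul'] at h5
    rwa [Nat.factorial_succ, mul_comm]

theorem inversion (V : (σ → ℕ) → B →ₗ[O] H) (Lf af : σ → H →ₗ[O] H) (wt : σ → Γ)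
    (W : Γ → Submodule O H) (hL : ∀ i n b, Lf i (V n b) = V (n + Pi.single i 1) b)
    (ha : ∀ i n b, af i (V n b) = n i • V (n - Pi.single i 1) b)
    (hWa : ∀ i w, ∀ x ∈ W w, af i x ∈ W (w + wt i))
    (hWL : ∀ i w, ∀ x ∈ W (w + wt i), Lf i x ∈ W w) (m t : ℕ) :
    ∀ (l : σ → ℕ), ∑ i, l i = t → ∀ (ν : κ → σ → ℕ) (s : Finset κ) (β : κ → B) (w : Γ),
      (∀ a ∈ s, ∑ i, ν a i ≤ m) → ∑ a ∈ s, V (ν a) (β a) ∈ W w →
      (m.factorial * ∏ i, (l i).factorial) • V 0 (∑ a ∈ s.filter (fun a => ν a = l), β a) ∈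
        W (w + ∑ i, l i • wt i) := by
  induction t with
  | zero =>
    intro l hl ν s β w h1 h2
    have h0 : l = 0 := funext fun i => Finset.sum_eq_zero_iff.1 hl i (Finset.mem_univ i)
    subst h0
    have := vac V (∑ i, Lf i ∘ₗ af i) (W w) (fun n b => ?_) (fun x hx => ?_) ν m s β h1 h2
    · simpa using this
    · rw [LinearMap.sum_apply, Finset.sum_smul]
      refine Finset.sum_congr rfl fun i _ => ?_
      rw [LinearMap.comp_apply, ha, map_nsmul, hL]
      by_cases h : n i = 0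
      · simp [h]
      · rw [sub_add_single n i h]
    · rw [LinearMap.sum_apply]
      exact Submodule.sum_mem _ fun i _ => hWL i w _ (hWa i w x hx)
  | succ t ih =>
    intro l hl ν s β w h1 h2
    obtain ⟨i, hi⟩ : ∃ i, l i ≠ 0 := by
      by_contra h
      push Not at h
      simp [h] at hl
    obtain ⟨l', rfl⟩ : ∃ l' : σ → ℕ, l = l' + Pi.single i 1 := ⟨_, (sub_add_single l i hi).symm⟩
    have hl' : ∑ k, l' k = t := by
      simp only [Pi.add_apply, Finset.sum_add_distrib, Finset.sum_pi_single', Finset.mem_univ,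
        if_true] at hl
      omega
    have h3 := hWa i w _ h2
    rw [map_sum, Finset.sum_congr rfl fun a _ => by rw [ha, ← map_nsmul]] at h3
    have h4 := ih l' hl' (fun a => ν a - Pi.single i 1) s (fun a => ν a i • β a) (w + wt i)
      (fun a h => (Finset.sum_le_sum fun k _ => Nat.sub_le _ _).trans (h1 a h)) h3
    have h5 : ∑ a ∈ s.filter (fun a => ν a - Pi.single i 1 = l'), ν a i • β a =
        (l' i + 1) • ∑ a ∈ s.filter (fun a => ν a = l' + Pi.single i 1), β a := by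
      rw [Finset.smul_sum, Finset.sum_filter, Finset.sum_filter]
      refine Finset.sum_congr rfl fun a _ => ?_
      by_cases h : ν a = l' + Pi.single i 1
      · rw [if_pos h, if_pos (by rw [h]; exact add_tsub_cancel_right _ _), h]
        simp
      · rw [if_neg h]
        split_ifs with h'
        · by_cases h0 : ν a i = 0
          · rw [h0, zero_nsmul]
          · exact (h (by rw [← h', sub_add_single _ i h0])).elim
        · rfl
    have h6 : w + wt i + ∑ k, l' k • wt k = w + ∑ k, (l' + Pi.single i 1 : σ → ℕ) k • wt k := by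
      have e : ∑ k, (Pi.single i 1 : σ → ℕ) k • wt k = wt i := by
        rw [Finset.sum_eq_single i (fun k _ hk => by simp [hk]) (by simp)]
        simp
      simp only [Pi.add_apply, add_nsmul, Finset.sum_add_distrib]
      rw [e]
      abel
    have h7 : ∏ k, ((l' + Pi.single i 1 : σ → ℕ) k).factorial =
        (∏ k, (l' k).factorial) * (l' i + 1) := by
      rw [← Finset.mul_prod_erase _ _ (Finset.mem_univ i),
        ← Finset.mul_prod_erase _ (fun k => (l' k).factorial) (Finset.mem_univ i),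
        Finset.prod_congr rfl (g := fun k => (l' k).factorial)
          fun k hk => by simp [Finset.ne_of_mem_erase hk]]
      simp only [Pi.add_apply, Pi.single_eq_same, Nat.factorial_succ]
      ring
    rw [h5, map_nsmul, ← mul_nsmul', h6] at h4
    rwa [h7, ← mul_assoc]

theorem list_succ {M : Type} [Monoid M] (f : σ → M) (hf : ∀ i k, Commute (f i) (f k))
    (n : σ → ℕ) (i : σ) : ∀ L : List σ, L.Nodup → i ∈ L →
      (L.map fun k => f k ^ (n + Pi.single i 1 : σ → ℕ) k).prod =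
        f i * (L.map fun k => f k ^ n k).prod := by
  intro L
  induction L with
  | nil => simp
  | cons a L ih =>
    intro hn hi
    rw [List.nodup_cons] at hn
    simp only [List.map_cons, List.prod_cons]
    by_cases h : a = i
    · subst h
      have : (L.map fun k => f k ^ (n + Pi.single a 1 : σ → ℕ) k) = L.map fun k => f k ^ n k :=
        List.map_congr_left fun k hk => by
          have : k ≠ a := fun e => hn.1 (e ▸ hk)
          simp [this]
      rw [this]
      simp only [Pi.add_apply, Pi.single_eq_same]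
      rw [pow_succ', mul_assoc]
    · have hi' : i ∈ L := (List.mem_cons.1 hi).resolve_left (Ne.symm h)
      rw [ih hn.2 hi']
      have : (n + Pi.single i 1 : σ → ℕ) a = n a := by simp [h]
      rw [this, ← mul_assoc, ← mul_assoc, ((hf i a).pow_right (n a)).eq]

end Weyl

section Frame
variable {p : ℕ} [Fact p.Prime] {A B Γ I ι : Type} {σ : I → Type}
  [CommRing A] [Algebra ℤ_[p] A] [AddCommGroup B] [Module A B] [Module ℤ_[p] B]
  [IsScalarTower ℤ_[p] A B] [AddCommGroup Γ] [LinearOrder I] [Fintype I] [Fintype ι]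
  [DecidableEq ι] [∀ j, Fintype (σ j)] [∀ j, DecidableEq (σ j)]
  (F : FrameData p A B Γ I ι σ)

/-- The operator `D^n ∘ m_b` as a linear function of `b`. -/
noncomputable def Vn (j : I) (n : σ j → ℕ) : B →ₗ[ℤ_[p]] (A →ₗ[ℤ_[p]] B) where
  toFun b := F.Dn j n ∘ₗ mOp ℤ_[p] A b
  map_add' _ _ := by ext; simp [mOp]
  map_smul' c b := by
    ext r
    have h : r • c • b = c • (r • b) := smul_comm _ _ _
    simp [mOp, h]

/-- Composition with `D`. -/
noncomputable def Lop (j : I) (i : σ j) : (A →ₗ[ℤ_[p]] B) →ₗ[ℤ_[p]] (A →ₗ[ℤ_[p]] B) where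
  toFun P := F.D j i ∘ₗ P
  map_add' _ _ := by ext; simp
  map_smul' _ _ := by ext; simp

/-- The commutator with a coordinate. -/
noncomputable def aop (j : I) (i : σ j) : (A →ₗ[ℤ_[p]] B) →ₗ[ℤ_[p]] (A →ₗ[ℤ_[p]] B) where
  toFun P := P ∘ₗ LinearMap.mulLeft ℤ_[p] (F.x j i) - mulL ℤ_[p] B (F.x j i) ∘ₗ P
  map_add' _ _ := by ext; simp; abel
  map_smul' _ _ := by ext; simp [smul_sub]

theorem Vn_apply (j : I) (n : σ j → ℕ) (b : B) (r : A) : Vn F j n b r = F.Dn j n (r • b) := rfl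

theorem Lop_apply (j : I) (i : σ j) (P : A →ₗ[ℤ_[p]] B) (r : A) :
    Lop F j i P r = F.D j i (P r) := rfl

theorem aop_apply (j : I) (i : σ j) (P : A →ₗ[ℤ_[p]] B) (r : A) :
    aop F j i P r = P (F.x j i * r) - F.x j i • P r := rfl

theorem Dn_zero (j : I) : F.Dn j 0 = 1 := by
  simp [FrameData.Dn]

theorem Lop_Vn (hC : F.AxC) (j : I) (i : σ j) (n : σ j → ℕ) (b : B) :
    Lop F j i (Vn F j n b) = Vn F j (n + Pi.single i 1) b := by
  ext r
  rw [Lop_apply, Vn_apply, Vn_apply]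
  unfold FrameData.Dn
  rw [list_succ (F.D j) (fun i k => LinearMap.ext fun b => hC.Dcomm j i k b) n i _
    (Finset.nodup_toList _) (by simp)]
  rfl

theorem aop_Lop (hC : F.AxC) (j : I) (i k : σ j) (P : A →ₗ[ℤ_[p]] B) :
    aop F j i (Lop F j k P) = Lop F j k (aop F j i P) + if k = i then P else 0 := by
  ext r
  rw [LinearMap.add_apply, aop_apply, Lop_apply, Lop_apply, Lop_apply, aop_apply, map_sub,
    hC.Dsmul, hC.dx]
  split_ifs
  · simp
    abel
  · simp

theorem aop_Vn (hC : F.AxC) (j : I) (i : σ j) (b : B) (t : ℕ) : ∀ n : σ j → ℕ, ∑ k, n k = t →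
    aop F j i (Vn F j n b) = n i • Vn F j (n - Pi.single i 1) b := by
  induction t with
  | zero =>
    intro n hn
    have h0 : n = 0 := funext fun i => Finset.sum_eq_zero_iff.1 hn i (Finset.mem_univ i)
    subst h0
    ext r
    simp [aop_apply, Vn_apply, Dn_zero, mul_smul]
  | succ t ih =>
    intro n hn
    obtain ⟨k, hk⟩ : ∃ k, n k ≠ 0 := by
      by_contra h
      push Not at h
      simp [h] at hn
    obtain ⟨n', rfl⟩ : ∃ n' : σ j → ℕ, n = n' + Pi.single k 1 :=
      ⟨_, (sub_add_single n k hk).symm⟩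
    have hn' : ∑ k, n' k = t := by
      simp only [Pi.add_apply, Finset.sum_add_distrib, Finset.sum_pi_single', Finset.mem_univ,
        if_true] at hn
      omega
    rw [← Lop_Vn F hC, aop_Lop F hC, ih n' hn', map_nsmul, Lop_Vn F hC]
    by_cases h : k = i
    · subst h
      rw [if_pos rfl, add_tsub_cancel_right]
      simp only [Pi.add_apply, Pi.single_eq_same, add_nsmul, one_nsmul]
      by_cases h0 : n' k = 0
      · simp [h0]
      · rw [sub_add_single n' k h0]
    · have e1 : (n' + Pi.single k 1 : σ j → ℕ) i = n' i := by simp [Ne.symm h]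
      have e2 : (n' - Pi.single i 1 + Pi.single k 1 : σ j → ℕ) =
          n' + Pi.single k 1 - Pi.single i 1 := by
        funext a
        by_cases ha : a = k
        · subst ha; simp [h]
        · simp [ha]
      rw [if_neg h, add_zero, e1, e2]

theorem mem_idx (j : I) (m : ℕ) (n : σ j → ℕ) :
    n ∈ FrameData.idx σ j m ↔ 1 ≤ ∑ i, n i ∧ ∑ i, n i ≤ m := by
  unfold FrameData.idx
  rw [Finset.mem_filter, Fintype.mem_piFinset]
  refine ⟨fun h => h.2, fun h => ⟨fun i => Finset.mem_range.2 ?_, h⟩⟩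
  have := Finset.single_le_sum (f := n) (fun _ _ => Nat.zero_le _) (Finset.mem_univ i)
  omega

theorem inv_frame (hC : F.AxC) (j : I) (W : Γ → Submodule ℤ_[p] (A →ₗ[ℤ_[p]] B))
    (hWa : ∀ i w, ∀ x ∈ W w, aop F j i x ∈ W (w + F.wt j i))
    (hWL : ∀ i w, ∀ x ∈ W (w + F.wt j i), Lop F j i x ∈ W w) (m : ℕ) (w : Γ)
    (β : (σ j → ℕ) → B) (h : ∑ n ∈ FrameData.idx σ j m, Vn F j n (β n) ∈ W w) :
    ∀ n ∈ FrameData.idx σ j m, (m.factorial ^ 2) • Vn F j 0 (β n) ∈ W (w + F.wn j n) := by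
  intro n hn
  have h1 := inversion (Vn F j) (Lop F j) (aop F j) (F.wt j) W (Lop_Vn F hC j)
    (fun i n b => aop_Vn F hC j i b _ n rfl) hWa hWL m _ n rfl id (FrameData.idx σ j m) β w
    (fun a ha => ((mem_idx j m a).1 ha).2) h
  have h2 : (FrameData.idx σ j m).filter (fun a => id a = n) = {n} := by
    ext a
    simp only [id, Finset.mem_filter, Finset.mem_singleton]
    exact ⟨fun h => h.2, fun h => ⟨h ▸ hn, h⟩⟩
  rw [h2, Finset.sum_singleton] at h1
  obtain ⟨c, hc⟩ := (Nat.prod_factorial_dvd_factorial_sum Finset.univ n).trans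
    (Nat.factorial_dvd_factorial ((mem_idx j m n).1 hn).2)
  have h3 : m.factorial ^ 2 = c * (m.factorial * ∏ i, (n i).factorial) := by
    rw [sq]
    nth_rewrite 2 [hc]
    ring
  rw [h3, mul_nsmul']
  exact nsmul_mem h1 c

theorem tf_pow (hL : F.AxL) (k : ℕ) (b : B) (h : (p : ℤ_[p]) ^ k • b = 0) : b = 0 := by
  induction k with
  | zero => simpa using h
  | succ k ih => exact ih (hL.tf _ (by rw [← mul_smul, ← pow_succ', h]))

theorem fact_unit (p : ℕ) [Fact p.Prime] (m : ℕ) : ∃ u : ℤ_[p]ˣ,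
    ((m.factorial ^ 2 : ℕ) : ℤ_[p]) = (p : ℤ_[p]) ^ (2 * padicValNat p m.factorial) * u := by
  obtain ⟨k, hk⟩ := pow_padicValNat_dvd (p := p) (n := m.factorial)
  have h1 : ¬ p ∣ k := fun ⟨c, hc⟩ =>
    pow_succ_padicValNat_not_dvd (p := p) m.factorial_ne_zero ⟨c, by
      rw [pow_succ, mul_assoc, ← hc]; exact hk⟩
  have h2 : IsUnit (k : ℤ_[p]) := PadicInt.isUnit_iff.2 (PadicInt.norm_natCast_eq_one_iff.2
    ((Nat.Prime.coprime_iff_not_dvd Fact.out).2 h1))
  refine ⟨h2.unit ^ 2, ?_⟩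
  have h3 : ((m.factorial : ℕ) : ℤ_[p]) = (p : ℤ_[p]) ^ padicValNat p m.factorial * k := by
    exact_mod_cast congrArg (Nat.cast : ℕ → ℤ_[p]) hk
  rw [Nat.cast_pow, h3, Units.val_pow_eq_pow_val, h2.unit_spec]
  ring

theorem cancel_fact (hL : F.AxL) (m S : ℕ) (M : Submodule ℤ_[p] B) (b : B)
    (h : (m.factorial ^ 2) • b ∈ sm ((p : ℤ_[p]) ^ (S + 2 * padicValNat p m.factorial)) M) :
    b ∈ sm ((p : ℤ_[p]) ^ S) M := by
  obtain ⟨u, hu⟩ := fact_unit p m
  obtain ⟨c, hc, h1⟩ := h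
  rw [LinearMap.lsmul_apply, ← Nat.cast_smul_eq_nsmul ℤ_[p], hu] at h1
  have h2 : (p : ℤ_[p]) ^ S • c - (u : ℤ_[p]) • b = 0 := by
    apply tf_pow F hL (2 * padicValNat p m.factorial)
    rw [smul_sub, ← mul_smul, ← mul_smul, ← pow_add, add_comm, h1, sub_self]
  refine ⟨((u⁻¹ : ℤ_[p]ˣ) : ℤ_[p]) • c, M.smul_mem _ hc, ?_⟩
  rw [LinearMap.lsmul_apply, smul_comm, sub_eq_zero.1 h2, ← mul_smul, Units.inv_mul, one_smul]

theorem sm_map {O E E' : Type} [CommRing O] [AddCommGroup E] [Module O E] [AddCommGroup E']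
    [Module O E'] (c : O) {M : Submodule O E} {M' : Submodule O E'} (f : E →ₗ[O] E')
    (hf : ∀ x ∈ M, f x ∈ M') {x : E} (hx : x ∈ sm c M) : f x ∈ sm c M' := by
  obtain ⟨y, hy, rfl⟩ := hx
  exact ⟨f y, hf y hy, by simp⟩

theorem part1 (hL : F.AxL) (hC : F.AxC) (J : Finset I) (w : Γ) (m : ℕ) (j : I) (S : ℕ)
    (β : (σ j → ℕ) → B) (hj : j ∈ J)
    (h : (∑ n ∈ FrameData.idx σ j m, F.Dn j n ∘ₗ mOp ℤ_[p] A (β n)) ∈
      F.WC J w (S + 2 * padicValNat p m.factorial)) :
    ∀ n ∈ FrameData.idx σ j m, β n ∈ sm ((p : ℤ_[p]) ^ S) (F.Bh J (w + F.wn j n)) := by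
  intro n hn
  have h1 := inv_frame F hC j (fun w => F.WC J w (S + 2 * padicValNat p m.factorial))
    (fun i w P hP J' hJ w' r hr => ?_) (fun i w P hP J' hJ w' r hr => ?_) m w β h n hn
  · have h2 := h1 J (Finset.Subset.refl J) 0 1 (hL.one J)
    rw [add_zero, LinearMap.smul_apply, Vn_apply, Dn_zero, one_smul, Module.End.one_apply] at h2
    exact cancel_fact F hL m S _ _ h2
  · rw [aop_apply]
    have hx := hC.xmem J' j i (hJ hj)
    refine Submodule.sub_mem _ ?_ ?_
    · rw [add_assoc]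
      exact hP J' hJ _ _ (hL.mul J' _ _ _ _ hx hr)
    · refine sm_map _ (mulL ℤ_[p] B (F.x j i)) (fun b hb => ?_) (hP J' hJ w' r hr)
      have := hL.smulH J' _ _ _ _ hx hb
      rwa [show F.wt j i + (w + w') = w + F.wt j i + w' by abel] at this
  · rw [Lop_apply]
    refine sm_map _ (F.D j i) (fun b hb => ?_) (hP J' hJ w' r hr)
    have := hC.DH J' j i _ b (hJ hj) hb
    rwa [show w + F.wt j i + w' - F.wt j i = w + w' by abel] at this

theorem part2 (hL : F.AxL) (hC : F.AxC) (m : ℕ) (j : I) (β : (σ j → ℕ) → B)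
    (h : (∑ n ∈ FrameData.idx σ j m, F.Dn j n ∘ₗ mOp ℤ_[p] A (β n)) = 0) :
    ∀ n ∈ FrameData.idx σ j m, β n = 0 := by
  intro n hn
  have h1 := inv_frame F hC j (fun _ => ⊥) (fun i w P hP => ?_) (fun i w P hP => ?_) m 0 β
    ((Submodule.mem_bot _).2 h) n hn
  · have h2 := LinearMap.congr_fun ((Submodule.mem_bot _).1 h1) 1
    rw [LinearMap.smul_apply, Vn_apply, Dn_zero, one_smul, Module.End.one_apply,
      LinearMap.zero_apply] at h2
    obtain ⟨c, hc, h3⟩ := cancel_fact F hL m 0 ⊥ (β n) (h2 ▸ Submodule.zero_mem _)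
    rw [← h3, (Submodule.mem_bot _).1 hc, map_zero]
  · rw [(Submodule.mem_bot _).1 hP, map_zero]
    exact Submodule.zero_mem _
  · rw [(Submodule.mem_bot _).1 hP, map_zero]
    exact Submodule.zero_mem _

theorem sat_pow (hL : F.AxL) (J : Finset I) (w : Γ) (l S : ℕ) (b : B) (hb : b ∈ F.Bh J w)
    (h : (p : ℤ_[p]) ^ S • b ∈ F.Bl J w l) : b ∈ F.Bl J w l := by
  induction S with
  | zero => simpa using h
  | succ S ih =>
    exact ih (hL.sat J w l _ (Submodule.smul_mem _ _ hb) (by rwa [← mul_smul, ← pow_succ']))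

end Frame

theorem rowF2 : RowF2 := by
  intro p _ A B Γ I ι σ _ _ _ _ _ _ _ _ _ _ _ _ _ F hL hC _ h1
  obtain ⟨hmono, -, -, -, -, -, h7, -⟩ := h1
  refine ⟨fun J w m j S β hj _ h => part1 F hL hC J w m j S β hj h, part2 F hL hC, ?_, ?_, ?_⟩
  · rintro J w m S P ⟨j, hj⟩ hP hW
    obtain ⟨β, hβ, rfl⟩ := (h7 J w m j P hj).1 hP
    have h2 := part1 F hL hC J w m j S β hj hW
    have h3 : ∀ n, ∃ b, n ∈ FrameData.idx σ j m →
        b ∈ F.Bl J (w + F.wn j n) (m - ∑ i, n i) ∧ (p : ℤ_[p]) ^ S • b = β n := by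
      intro n
      by_cases hn : n ∈ FrameData.idx σ j m
      · obtain ⟨b, hb, e⟩ := h2 n hn
        have e' : (p : ℤ_[p]) ^ S • b = β n := e
        exact ⟨b, fun _ => ⟨sat_pow F hL J _ _ S b hb (e' ▸ hβ n hn), e'⟩⟩
      · exact ⟨0, fun h => (hn h).elim⟩
    choose b hb using h3
    refine ⟨_, (h7 J w m j _ hj).2 ⟨b, fun n hn => (hb n hn).1, rfl⟩, ?_⟩
    rw [LinearMap.lsmul_apply, Finset.smul_sum]
    refine Finset.sum_congr rfl fun n hn => ?_
    rw [← (hb n hn).2]
    exact ((Vn F j n).map_smul _ _).symm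
  · rintro J w m l P ⟨j, hj⟩ hP hp
    rcases le_total m l with hml | hlm
    · exact hmono J J w m l (Finset.Subset.refl J) hml hP
    obtain ⟨β, hβ, rfl⟩ := (h7 J w m j P hj).1 hP
    obtain ⟨γ, hγ, e⟩ := (h7 J w l j _ hj).1 hp
    have hsub : FrameData.idx σ j l ⊆ FrameData.idx σ j m := fun n hn =>
      (mem_idx j m n).2 ⟨((mem_idx j l n).1 hn).1, ((mem_idx j l n).1 hn).2.trans hlm⟩
    have h2 := part2 F hL hC m j
      (fun n => (p : ℤ_[p]) • β n - if n ∈ FrameData.idx σ j l then γ n else 0) (by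
        change ∑ n ∈ FrameData.idx σ j m, Vn F j n _ = 0
        change (p : ℤ_[p]) • ∑ n ∈ FrameData.idx σ j m, Vn F j n (β n) =
          ∑ n ∈ FrameData.idx σ j l, Vn F j n (γ n) at e
        simp only [map_sub, map_smul, Finset.sum_sub_distrib]
        rw [← Finset.smul_sum, e, sub_eq_zero,
          ← Finset.sum_subset hsub fun n _ hn => by rw [if_neg hn, map_zero]]
        exact Finset.sum_congr rfl fun n hn => by rw [if_pos hn])
    refine (h7 J w l j _ hj).2 ⟨β, fun n hn => ?_, ?_⟩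
    · have h3 := h2 n (hsub hn)
      rw [if_pos hn, sub_eq_zero] at h3
      exact hL.sat J _ _ _ (hL.le J _ _ (hβ n (hsub hn))) (h3 ▸ hγ n hn)
    · refine (Finset.sum_subset hsub fun n hn hn' => ?_).symm
      have h3 := h2 n hn
      rw [if_neg hn', sub_zero] at h3
      rw [hL.tf _ h3]
      exact (Vn F j n).map_zero
  · rintro J w m ⟨j, hj⟩
    refine (Submodule.fg_biSup (FrameData.idx σ j m)
      (fun n => (F.Bl J (w + F.wn j n) (m - ∑ i, n i)).map (Vn F j n))
      fun n _ => (hL.fg J _ _ ⟨j, hj⟩).map _).of_le fun P hP => ?_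
    obtain ⟨β, hβ, rfl⟩ := (h7 J w m j P hj).1 hP
    refine Submodule.sum_mem _ fun n hn => ?_
    exact Submodule.mem_iSup_of_mem n (Submodule.mem_iSup_of_mem hn ⟨β n, hβ n hn, rfl⟩)

end Pool.Agent.MP_ea150c_mp.H33
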