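import Pool.Agent.MP_ea150c_mp.H20.SpecM

/-! The matrix tree theorem for networks. -/

namespace Pool.Agent.MP_ea150c_mp.H33

open Matrix Pool.Agent.MP_ea150c_mp.H20

theorem psi_eq_det (hB : SBlk) (hT : STree) {F E I : Type} [Field F] [Fintype E] [DecidableEq E]
    [Fintype I] [DecidableEq I] (s t : E → Option I) (α : E → F) :
    Psi s t α = (fromBlocks (diagonal α) (-(inc F s t)) (inc F s t)ᵀ 0).det := by
  classical
  obtain ⟨g, h1, h2, h3⟩ := hB F E I (inc F s t)
  rw [h1 α]
  unfold Psi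
  rw [Finset.sum_filter]
  refine Finset.sum_congr rfl fun T _ => ?_
  by_cases hc : T.card = Fintype.card I
  · have φ : I ≃ T := Fintype.equivOfCardEq (by rw [Fintype.card_coe, hc])
    obtain ⟨h4, h5⟩ := (hT F E I s t T).2 φ
    by_cases hn : Conn s t T
    · have ht : IsTree s t T := ⟨hn, by rw [Fintype.card_option, hc]⟩
      rw [if_pos ht, h3 T φ, h4 hn, mul_one]
    · have ht : ¬ IsTree s t T := fun h => hn h.1
      rw [if_neg ht, h3 T φ, h5 hn]
      simp
  · have ht : ¬ IsTree s t T := fun h => hc (by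
      have := h.2
      rw [Fintype.card_option] at this
      omega)
    rw [if_neg ht, h2 T hc, mul_zero]

theorem blk_mulVec {F E I : Type} [Field F] [Fintype E] [DecidableEq E] [Fintype I]
    (B : Matrix E I F) (α z : E → F) (x : I → F) :
    fromBlocks (diagonal α) (-B) Bᵀ (0 : Matrix I I F) *ᵥ Sum.elim z x = 0 ↔
      (∀ e, α e * z e = (B *ᵥ x) e) ∧ Bᵀ *ᵥ z = 0 := by
  rw [fromBlocks_mulVec]
  simp only [Sum.elim_comp_inl, Sum.elim_comp_inr, neg_mulVec, zero_mulVec, add_zero]
  constructor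
  · intro h
    refine ⟨fun e => ?_, funext fun i => ?_⟩
    · have := congrFun h (Sum.inl e)
      simp only [Sum.elim_inl, Pi.add_apply, Pi.neg_apply, mulVec_diagonal, Pi.zero_apply] at this
      linear_combination this
    · simpa using congrFun h (Sum.inr i)
  · rintro ⟨h1, h2⟩
    funext k
    rcases k with e | i
    · simp only [Sum.elim_inl, Pi.add_apply, Pi.neg_apply, mulVec_diagonal, Pi.zero_apply]
      linear_combination h1 e
    · simp [h2]

theorem ofMT : OfMT := by
  intro hB hT F E I _ _ _ _ _ _ _ s t hc α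
  rw [psi_eq_det hB hT s t α, Ne, ← Matrix.exists_mulVec_eq_zero_iff]
  unfold nsol
  rw [Nat.card_eq_one_iff_unique]
  have hinj := (hT F E I s t Finset.univ).1.1 hc
  constructor
  · intro h
    have key : ∀ y : {y : LinearMap.range (inc F s t).mulVecLin ×
        LinearMap.ker (inc F s t)ᵀ.mulVecLin //
        ∀ e, al (some (α e)) * (y.2 : E → F) e = te (some (α e)) * (y.1 : E → F) e}, y.1 = 0 := by
      rintro ⟨⟨⟨u, x, hx⟩, ⟨z, hz⟩⟩, hy⟩
      have hz' : (inc F s t)ᵀ *ᵥ z = 0 := hz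
      have hx' : inc F s t *ᵥ x = u := hx
      have h0 : Sum.elim z x = 0 := by
        by_contra hne
        refine h ⟨_, hne, (blk_mulVec _ α z x).2 ⟨fun e => ?_, hz'⟩⟩
        have := hy e
        simp only [al, te, one_mul] at this
        rw [hx']
        exact this
      have hz0 : z = 0 := funext fun e => congrFun h0 (Sum.inl e)
      have hx0 : x = 0 := funext fun i => congrFun h0 (Sum.inr i)
      have hu0 : u = 0 := by rw [← hx', hx0, mulVec_zero]
      refine Prod.ext (Subtype.ext hu0) (Subtype.ext hz0)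
    exact ⟨⟨fun a b => Subtype.ext ((key a).trans (key b).symm)⟩, ⟨⟨0, fun e => by simp⟩⟩⟩
  · rintro ⟨hs, -⟩ ⟨v, hv, h0⟩
    have hv' : v = Sum.elim (v ∘ Sum.inl) (v ∘ Sum.inr) := by
      funext k
      rcases k with e | i <;> rfl
    rw [hv'] at h0
    obtain ⟨h1, h2⟩ := (blk_mulVec _ α _ _).1 h0
    have := hs.elim ⟨(⟨inc F s t *ᵥ (v ∘ Sum.inr), ⟨v ∘ Sum.inr, rfl⟩⟩, ⟨v ∘ Sum.inl, h2⟩),
      fun e => by simpa [al, te] using h1 e⟩ ⟨0, fun e => by simp⟩
    have h3 := congrArg Subtype.val this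
    have h4 : inc F s t *ᵥ (v ∘ Sum.inr) = 0 := congrArg (fun y => (y.1 : E → F)) h3
    have h5 : v ∘ Sum.inl = 0 := congrArg (fun y => (y.2 : E → F)) h3
    have h6 : v ∘ Sum.inr = 0 := hinj _ fun e _ => by rw [h4]; rfl
    apply hv
    rw [hv', h5, h6]
    funext k
    rcases k with e | i <;> rfl

end Pool.Agent.MP_ea150c_mp.H33
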