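import Pool.Agent.MP_ea150c_mp.H49.SpecG

/-! The lattice axioms of the frame of a model. -/

set_option linter.unusedSectionVars false

namespace Pool.Agent.MP_ea150c_mp.H33

open Pool.Agent.MP_ea150c_mp.H49

noncomputable section

section Fin
variable {O : Type} [CommRing O]

/-- A support submodule with finitely many allowed exponents is finitely generated. -/
theorem supp_fg {σ : Type} (tor : σ → Bool) (P : (σ → ℤ) → Prop)
    (hP : {u : σ → ℤ | u ∈ Mon tor ∧ P u}.Finite) : (supp tor O P).FG := by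
  classical
  have hfin : {u : Mon tor | P u.1}.Finite := by
    refine Set.Finite.of_finite_image (f := Subtype.val) (hP.subset ?_) Subtype.val_injective.injOn
    rintro _ ⟨u, hu, rfl⟩
    exact ⟨u.2, hu⟩
  have hle : supp tor O P = Submodule.span O
      ((fun u : Mon tor => (AddMonoidAlgebra.single u 1 : Tor O tor)) '' {u : Mon tor | P u.1}) := by
    apply le_antisymm
    · intro z hz
      rw [← AddMonoidAlgebra.sum_coeff_single z]
      refine Submodule.sum_mem _ fun u hu => ?_
      have h1 : (AddMonoidAlgebra.single u (z.coeff u) : Tor O tor) =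
          z.coeff u • AddMonoidAlgebra.single u 1 := by simp
      change (AddMonoidAlgebra.single u (z.coeff u) : Tor O tor) ∈ _
      rw [h1]
      exact Submodule.smul_mem _ _
        (Submodule.subset_span ⟨u, hz u (Finsupp.mem_support_iff.1 hu), rfl⟩)
    · rw [Submodule.span_le]
      rintro _ ⟨u, hu, rfl⟩ v hv
      rw [AddMonoidAlgebra.coeff_single, Finsupp.single_apply] at hv
      split_ifs at hv with h
      · rw [← h]; exact hu
      · exact (hv rfl).elim
  rw [hle]
  exact Submodule.fg_span (hfin.image _)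

/-- A product of finitely generated modules, zero outside a finite set, is finitely generated. -/
theorem pi_fg {κ E : Type} [AddCommGroup E] [Module O E] (N : κ → Submodule O E) (s : Finset κ)
    (hs : ∀ l, l ∉ s → N l = ⊥) (hN : ∀ l, (N l).FG) : (Submodule.pi Set.univ N).FG := by
  classical
  have : Submodule.pi Set.univ N =
      ⨆ l ∈ s, (N l).map (LinearMap.single O (fun _ : κ => E) l) := by
    apply le_antisymm
    · intro b hb
      have h1 : b = ∑ l ∈ s, Pi.single l (b l) := by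
        ext k
        rw [Finset.sum_apply]
        by_cases hk : k ∈ s
        · rw [Finset.sum_eq_single k]
          · simp
          · intro l _ hl; exact Pi.single_eq_of_ne hl.symm _
          · intro h; exact (h hk).elim
        · have h0 : b k = 0 := by
            have : b k ∈ N k := hb k trivial
            rw [hs k hk] at this
            simpa using this
          rw [h0]
          symm
          refine Finset.sum_eq_zero fun l hl => Pi.single_eq_of_ne ?_ _
          rintro rfl; exact hk hl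
      rw [h1]
      refine Submodule.sum_mem _ fun l hl => ?_
      refine Submodule.mem_iSup_of_mem l (Submodule.mem_iSup_of_mem hl ?_)
      exact ⟨b l, hb l trivial, rfl⟩
    · refine iSup_le fun l => iSup_le fun _ => ?_
      rintro _ ⟨a, ha, rfl⟩ k _
      by_cases h : k = l
      · subst h; simpa using ha
      · have : (LinearMap.single O (fun _ : κ => E) l) a k = 0 := Pi.single_eq_of_ne h _
        rw [this]; exact zero_mem _
  rw [this]
  exact Submodule.fg_biSup _ _ fun l _ => (hN l).map _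

end Fin

section Sums
variable {ι Γ : Type} [Fintype ι] [DecidableEq ι] [AddCommGroup Γ]

theorem sum_sub_single (om : ι → Γ) (l : ι → ℕ) (i : ι) (h : l i ≠ 0) :
    ∑ k, l k • om k = om i + ∑ k, (l - Pi.single i 1 : ι → ℕ) k • om k := by
  have h1 : ∀ k, l k • om k = (if k = i then om i else 0) + (l - Pi.single i 1 : ι → ℕ) k • om k := by
    intro k
    by_cases hk : k = i
    · subst hk
      obtain ⟨n, hn⟩ := Nat.exists_eq_succ_of_ne_zero h
      simp only [Pi.sub_apply, Pi.single_eq_same, if_true, hn, Nat.succ_eq_add_one,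
        Nat.add_sub_cancel, succ_nsmul]
      abel
    · simp [hk]
  rw [Finset.sum_congr rfl fun k _ => h1 k, Finset.sum_add_distrib]
  simp

theorem sum_sub_single_nat (l : ι → ℕ) (i : ι) (h : l i ≠ 0) :
    ∑ k, l k = 1 + ∑ k, (l - Pi.single i 1 : ι → ℕ) k := by
  have h1 : ∀ k, l k = (if k = i then 1 else 0) + (l - Pi.single i 1 : ι → ℕ) k := by
    intro k
    by_cases hk : k = i
    · subst hk
      simp only [Pi.sub_apply, Pi.single_eq_same, if_true]
      omega
    · simp [hk]
  rw [Finset.sum_congr rfl fun k _ => h1 k, Finset.sum_add_distrib]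
  simp

end Sums

theorem g2a (g1 : G1) (s1p : S1p) (cx : CX) : G2a := by
  intro I τ ι _ _ _ _ _ _ M h p _
  obtain ⟨-, -, -, -, -, -, -, -, -, c10, c11, c12, -⟩ := cx I τ ι M h ℤ_[p]
  obtain ⟨s1, -, s3, -⟩ := s1p p (Var I τ) torV
  have aone : ∀ J, (1 : Ainv ℤ_[p] I τ) ∈ M.Ap ℤ_[p] J 0 := fun J => (c10 J).1
  have amul : ∀ J w w' (a b : Ainv ℤ_[p] I τ), a ∈ M.Ap ℤ_[p] J w → b ∈ M.Ap ℤ_[p] J w' →
      a * b ∈ M.Ap ℤ_[p] J (w + w') := fun J w w' a b ha hb => c11 J w w' a.1 b.1 ha hb
  have amono : ∀ J J' w, J ⊆ J' → M.Ap ℤ_[p] J w ≤ M.Ap ℤ_[p] J' w :=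
    fun J J' w hJ a ha => c12 J J' w hJ ha
  have hp : ∀ a : Ainv ℤ_[p] I τ, ((p : ℤ_[p]) • a).1 = (p : Zr ℤ_[p] I τ) * a.1 := by
    intro a
    change (p : ℤ_[p]) • a.1 = _
    rw [Nat.cast_smul_eq_nsmul, nsmul_eq_mul]
  have atf : ∀ a : Ainv ℤ_[p] I τ, (p : ℤ_[p]) • a = 0 → a = 0 := by
    intro a ha
    apply Subtype.ext
    apply s1
    rw [← hp, ha]; rfl
  have anat : ∀ J w (n : ℕ) (a : Ainv ℤ_[p] I τ), a ∈ M.Ap ℤ_[p] J w →
      (n : Ainv ℤ_[p] I τ) * a ∈ M.Ap ℤ_[p] J w := by
    intro J w n a ha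
    rw [← nsmul_eq_mul]
    exact nsmul_mem ha n
  have memH : ∀ J w (b : PS ι (Ainv ℤ_[p] I τ)), b ∈ M.Bh p J w ↔
      ∀ l, b l ∈ M.Ap ℤ_[p] J (w + M.w0 + ∑ i, l i • M.om i) :=
    fun J w b => ⟨fun hb l => hb l trivial, fun hb l _ => hb l⟩
  have memL : ∀ J w m (b : PS ι (Ainv ℤ_[p] I τ)), b ∈ M.Bl p J w m ↔
      (∀ l, b l ∈ M.Ap ℤ_[p] J (w + M.w0 + ∑ i, l i • M.om i)) ∧
        ∀ l : ι → ℕ, ¬ ∑ i, l i ≤ m → b l = 0 := by
    intro J w m b
    constructor
    · intro hb
      refine ⟨fun l => ?_, fun l hl => ?_⟩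
      · have := (Submodule.mem_pi.1 hb) l trivial
        by_cases hl : ∑ i, l i ≤ m
        · simpa only [if_pos hl] using this
        · simp only [if_neg hl, Submodule.mem_bot] at this
          rw [this]; exact zero_mem _
      · have := (Submodule.mem_pi.1 hb) l trivial
        simpa only [if_neg hl, Submodule.mem_bot] using this
    · rintro ⟨h1, h2⟩
      refine Submodule.mem_pi.2 fun l _ => ?_
      by_cases hl : ∑ i, l i ≤ m
      · simpa only [if_pos hl] using h1 l
      · simpa only [if_neg hl, Submodule.mem_bot] using h2 l hl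
  have zpow : ∀ J y (n : ℕ), tX torV ℤ_[p] y ^ n ∈ M.Zp ℤ_[p] J ((n : ℤ) • M.wtv y) := by
    intro J y n
    induction n with
    | zero => simpa using (c10 J).1
    | succ n ih =>
      rw [pow_succ, Nat.cast_succ, add_smul, one_smul]
      exact c11 _ _ _ _ _ ih ((c10 J).2 y)
  have zprod : ∀ J (m : Var I τ → ℕ) (s : Finset (Var I τ)),
      ∏ y ∈ s, tX torV ℤ_[p] y ^ m y ∈ M.Zp ℤ_[p] J (∑ y ∈ s, (m y : ℤ) • M.wtv y) := by
    intro J m s
    induction s using Finset.induction_on with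
    | empty => simpa using (c10 J).1
    | insert a s ha ih =>
      rw [Finset.prod_insert ha, Finset.sum_insert ha]
      exact c11 _ _ _ _ _ (zpow J a (m a)) ih
  have hf : ∀ J i, M.fA ℤ_[p] h i ∈ M.Ap ℤ_[p] J (M.om i) := by
    intro J i
    change ofPoly torV ℤ_[p] (M.f i) ∈ M.Zp ℤ_[p] J (M.om i)
    rw [ofPoly, MvPolynomial.coe_eval₂Hom, MvPolynomial.eval₂_eq']
    refine Submodule.sum_mem _ fun m hm => ?_
    have h1 := zprod J (fun y => m y) Finset.univ
    have h2 := h.hom i m hm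
    rw [Model.wt] at h2
    rw [h2] at h1
    rw [eq_intCast, ← zsmul_eq_mul]
    exact zsmul_mem h1 _
  have fmem : ∀ (J : Finset I) i (b : PS ι (Ainv ℤ_[p] I τ)) w,
      (∀ l, b l ∈ M.Ap ℤ_[p] J (w + M.w0 + ∑ i, l i • M.om i)) →
      ∀ l, thOp (M.fA ℤ_[p] h) i b l ∈ M.Ap ℤ_[p] J (w + M.w0 + ∑ i, l i • M.om i) := by
    intro J i b w hb l
    change ((l i + 1 : ℕ) : Ainv ℤ_[p] I τ) * b l + M.fA ℤ_[p] h i *
      (if l i = 0 then 0 else b (l - Pi.single i 1)) ∈ _
    refine add_mem (anat _ _ _ _ (hb l)) ?_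
    by_cases hl : l i = 0
    · rw [if_pos hl, mul_zero]; exact zero_mem _
    · rw [if_neg hl]
      have := amul _ _ _ _ _ (hf J i) (hb (l - Pi.single i 1))
      rw [sum_sub_single M.om l i hl]
      have e : w + M.w0 + (M.om i + ∑ k, (l - Pi.single i 1 : ι → ℕ) k • M.om k) =
          M.om i + (w + M.w0 + ∑ k, (l - Pi.single i 1 : ι → ℕ) k • M.om k) := by abel
      rw [e]; exact this
  refine ⟨aone, amul, amono, ?_, ?_, ?_, ?_, ?_, ?_, ?_, ?_, ?_, ?_, ?_⟩
  · intro J J' w hJ b hb
    exact (memH _ _ _).2 fun l => amono _ _ _ hJ ((memH _ _ _).1 hb l)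
  · intro J J' w m hJ b hb
    exact (memL _ _ _ _).2 ⟨fun l => amono _ _ _ hJ (((memL _ _ _ _).1 hb).1 l),
      ((memL _ _ _ _).1 hb).2⟩
  · intro J w m m' hm b hb
    exact (memL _ _ _ _).2 ⟨((memL _ _ _ _).1 hb).1,
      fun l hl => ((memL _ _ _ _).1 hb).2 l fun h' => hl (h'.trans hm)⟩
  · intro J w m b hb
    exact (memH _ _ _).2 ((memL _ _ _ _).1 hb).1
  · intro J w w' a b ha hb
    refine (memH _ _ _).2 fun l => ?_
    have := amul _ _ _ _ _ ha ((memH _ _ _).1 hb l)
    have e : w + w' + M.w0 + ∑ i, l i • M.om i = w + (w' + M.w0 + ∑ i, l i • M.om i) := by abel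
    rw [e]; exact this
  · intro J w w' m a b ha hb
    refine (memL _ _ _ _).2 ⟨fun l => ?_, fun l hl => ?_⟩
    · have := amul _ _ _ _ _ ha (((memL _ _ _ _).1 hb).1 l)
      have e : w + w' + M.w0 + ∑ i, l i • M.om i = w + (w' + M.w0 + ∑ i, l i • M.om i) := by abel
      rw [e]; exact this
    · change a * b l = 0
      rw [((memL _ _ _ _).1 hb).2 l hl, mul_zero]
  · intro b hb
    funext l
    exact atf _ (congrFun hb l)
  · intro J w m b hb hpb
    refine (memL _ _ _ _).2 ⟨(memH _ _ _).1 hb, fun l hl => atf _ ?_⟩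
    exact ((memL _ _ _ _).1 hpb).2 l hl
  · rintro J w m ⟨j, hj⟩
    obtain ⟨-, k2, -, k4, -, -, -, k8, -⟩ := g1 I τ ι M h ℤ_[p] j
    have afg : ∀ w, (M.Ap ℤ_[p] J w).FG := by
      intro w
      have h1 : (Tp (torS τ j) (cvS τ j) (fun y => M.wtv y.1) ℤ_[p] J w).FG :=
        supp_fg _ _ ((k8 w).subset fun u hu => ⟨hu.1, hu.2.2⟩)
      refine Submodule.FG.of_le (h1.map (kapS ℤ_[p] τ j).toLinearMap) ?_
      intro a ha
      exact ⟨rhoA ℤ_[p] τ j a, (k4 J w a hj).1 ha, k2 a⟩
    refine pi_fg _ (Fintype.piFinset fun _ : ι => Finset.range (m + 1)) ?_ ?_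
    · intro l hl
      rw [if_neg]
      intro hm
      apply hl
      rw [Fintype.mem_piFinset]
      intro i
      rw [Finset.mem_range]
      have := Finset.single_le_sum (f := l) (fun k _ => Nat.zero_le _) (Finset.mem_univ i)
      omega
    · intro l
      split_ifs
      · exact afg _
      · exact Submodule.fg_bot
  · intro i J w b hb
    exact (memH _ _ _).2 (fmem J i b w ((memH _ _ _).1 hb))
  · intro i J w m b hb
    refine (memL _ _ _ _).2 ⟨fmem J i b w ((memL _ _ _ _).1 hb).1, fun l hl => ?_⟩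
    change ((l i + 1 : ℕ) : Ainv ℤ_[p] I τ) * b l + M.fA ℤ_[p] h i *
      (if l i = 0 then 0 else b (l - Pi.single i 1)) = 0
    rw [((memL _ _ _ _).1 hb).2 l (by omega), mul_zero, zero_add]
    by_cases hl0 : l i = 0
    · rw [if_pos hl0, mul_zero]
    · rw [if_neg hl0, ((memL _ _ _ _).1 hb).2 _ (by
        have := sum_sub_single_nat l i hl0
        omega), mul_zero]

end

end Pool.Agent.MP_ea150c_mp.H33
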